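import Pool.Agent.K9h16.AE.Def

/-!
# The Tate conjecture for divisors on almost all abelian coverings of prime degrees of the plane
branched along given lines and graphs of polynomials

Let `F_1, ..., F_r` be polynomials in two variables over a finitely generated field `k` of the form

`F_i(x, y) = m_i x + m'_i y + f_i(l_i x + l'_i y)`, `deg f_i ≤ d_i ≤ D`:

the equations of arbitrary lines (`d_i = 0`) and of the graphs of polynomials of one variable in
arbitrary affine coordinates of the plane. Let `n_1, ..., n_s` be different primes, `k` of
characteristic `0` (or `1` modulo `N = ∏ n_t`) with the `N`-th roots of unity. For exponents `a_ti`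
let `X_a` be a smooth projective model of the surface `w_t ^ n_t = ∏_i F_i(x, y) ^ a_ti`
(`t = 1, ..., s`); it depends only on the vectors `a_t ∈ (ℤ / n_t) ^ r`. (For `s = 1` these are all
the cyclic coverings of the degree `n_1` of the plane branched along the given curves and the line at
infinity.)

Theorem. Let `K > 4 r (s (D + 1) ∑ max(1, d_i))²` (a number which does not depend on the primes).
(1) The number of vectors `e ∈ (ℤ / p) ^ r` with a relation `∑ h_i e_i = 0`, `h_i` integers not all
`0`, `|h_i| < K`, is at most `(2 K) ^ r p ^ (r - 1)`, which is a proportion `(2 K) ^ r / p` of all.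
(2) If no `a_t` is one of them, then over every finite extension of `k` all Tate classes of degree
one of `X_a` are algebraic. So for given curves the Tate conjecture for divisors holds for 100% of
the coverings, as the primes tend to infinity.

For (2) let `φ` be a Frobenius element at a place of good reduction with the residue field `κ` of
characteristic `c`, `c = 1` modulo `N`. Up to the classes of the curves at infinity,
`H²(X_a)` is contained in the compactly supported cohomology `V = H²_c` of the affine surface; `V` and
`V' = H³_c` are the sums of the parts `W_j` and `W'_j` of the nontrivial characters `j` of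
`∏ μ_(n_t)`, and by the Grothendieck-Lefschetz formula (and `H⁰_c = H¹_c = 0`) the differences of
the traces of the powers of `φ` on them are the sums `charSum` (`HasCharTrace`). The weight of `V'`
is three. The theorem (`TateFor`) says that no nonzero vector of `V` is multiplied by a character
`ε` of the Galois group with `ε φ = |κ|` under a subgroup of finite index.

Method: by an argument with the Fejer kernel each nontrivial character has a Galois conjugate all of
whose exponents `u a_ti mod n_t` are positive and small compared with `n_t`, if there is no
short relation. For this conjugate the character sums are divisible by `|κ|²` by the theorem of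
Stickelberger and an inequality for each digit.
-/

set_option autoImplicit false

namespace Pool.Agent.Results.MP_89bcae_ag.AlmostAllExponents

open Polynomial Pool.Agent.K9h16.LD Pool.Agent.K9h16.AE

/-- The Tate conjecture for almost all coverings of prime degrees of the plane branched along given
lines and graphs of polynomials. -/
theorem result (s r : ℕ) (hs : 0 < s) (D : ℕ) (d : Fin r → ℕ) (hd : ∀ i, d i ≤ D) (K : ℕ)
    (hK : 4 * r * (s * (D + 1) * ∑ i, max 1 (d i)) ^ 2 < K) :
    (∀ (p : ℕ) [Fact p.Prime], (bad p r K).card ≤ (2 * K) ^ r * p ^ (r - 1)) ∧
    ∀ (n : Fin s → ℕ) [∀ t, Fact (n t).Prime], Function.Injective n →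
    ∀ (c : ℕ) [Fact c.Prime], ∏ t, n t ∣ c - 1 →
    ∀ (κ : Type) [Field κ] [Fintype κ] [CharP κ c] (z : κ), IsPrimitiveRoot z (∏ t, n t) →
    ∀ (E : Type) [Field E] [CharZero E] [IsAlgClosed E] (μ : E), IsPrimitiveRoot μ (∏ t, n t) →
    ∀ (m m' l l' : Fin r → κ) (f : Fin r → κ[X]), (∀ i, (f i).natDegree ≤ d i) →
    ∀ (a : Fin s → Fin r → ℕ), (∀ t, (fun i => (a t i : ZMod (n t))) ∉ bad (n t) r K) →
      TateFor n κ z E μ m m' l l' f a :=
  ⟨fun _ _ => card_bad r K, fun n _ hinj c _ hc κ _ _ _ z hz E _ _ _ μ hμ m m' l l' f hf a ha =>
    ae_for hs D d hd K hK n hinj c hc κ z hz E μ hμ m m' l l' f hf a ha⟩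

end Pool.Agent.Results.MP_89bcae_ag.AlmostAllExponents
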