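import Mathlib
import Pool.Agent.TH115.GD.Defs
import Pool.Agent.TH115.GD.Defs2
import Pool.Agent.K9h16.PT.Cnt
import Pool.Agent.K9h16.GK.Def
import Pool.Agent.K9h16.GK.ThrC

/-!
# A Galois criterion for the potential Tate conjecture at 2 for the elliptic surfaces with full level two,
# over all fields of characteristic different from 2

Let `k` be ANY field of characteristic different from 2 (not only a finitely generated one). Every elliptic
curve over `k(t)` whose points of order two are rational is a twist of a curve

`E : y² = x (x - a) (x - b)`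

with coprime polynomials `a`, `b` over `k`. If `a`, `b`, `a - b` are separable, the elliptic surface over the
projective line with the generic fibre `E` has fibres of type `I₂` over the roots of `a`, `b` and `a - b`; the
fibre at infinity is arbitrary. For general `a`, `b` of degree at most `N` the geometric genus is
`⌈N / 2⌉ - 1`.

The pair `(a, b)` satisfies the CRITERION if

* `a`, `b`, `a - b` are separable of degree at least `5`,
* the Galois group of the splitting field of `a b (a - b)` over `k` contains the product of the three
  alternating groups of the roots of `a`, of `b` and of `a - b`,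
* for some roots `θ`, `θ'` of `a` the product `b(θ) b(θ')` is not a square in the splitting field of `a`,
* for some roots `θ`, `θ'` of `a` and `η`, `η'` of `b` the product
  `(θ - η) (θ' - η) (θ - η') (θ' - η')` is not a square in the splitting field of `a b`; and the same for
  `a` and `a - b`.

(For instance the last two conditions hold if there is a discrete valuation of `k` at which `a`, `b`, `a - b`
have separable reductions of the same degrees and the valuation of the resultant of `a` and `b` is odd: the
splitting field is unramified there, and for one root `θ` of `a` the elements `b(θ)`, `θ - η`, `θ - ρ` have an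
odd valuation for exactly one root `η` of `b` and one root `ρ` of `a - b`. This remark is not a part of the
theorem.)

Theorem. (1) (The criterion.) Let `(a, b)` satisfy the criterion. Then for EVERY finite separable extension
`L` of `k`, with separable closure `L'`, and EVERY constant `δ ≠ 0` of `L`, for the twist
`E_δ : y² = x (x - δ a) (x - δ b)` over `L(t)`

(i) the Tate conjecture for divisors at the prime 2 holds (`TateAtTwo`): the classes in
`V₂ Sel(E_δ / L'(t))` which are fixed by the Galois group of `L` come from `E_δ(L(t))`;

(ii) in fact all these classes are zero (`GeneratedBy` with `0` generators).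

So no nonzero class of `V₂ Sel(E / k'(t))`, `k'` a separable closure of `k`, is fixed by an open subgroup
of the Galois group of `k`.

(2) (100%.) Let `R` be an integrally closed domain which is finitely generated as a ring and not a field,
with `2 ≠ 0` in `R`, and `k` its field of fractions (each infinite finitely generated field of
characteristic different from 2 is of this form), and `N ≥ 5`. Let `B 0`, `B 1`, ... be a sequence of
nonempty finite sets of pairs `(a, b)` over `R` of degree at most `N`, which is equidistributed modulo each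
ideal of `R` with finite quotient. Then the proportion of the pairs in `B i` which satisfy the criterion
tends to `1`.

The proof. All the extensions are treated over the splitting field `k₁` of `a b (a - b)`, over which the
first descent leaves at least `2 ^ (deg a + deg b + deg (a - b) - 2)` triples. (a) Since all the reductions
modulo 2 of the classes over `k₁(t)` come from `k₁(t)`, a finite Galois group over `k₁` acts on the lattice
of the classes fixed by an open subgroup trivially modulo 2; so there is an eigenvector with values `±1`
which is not divisible by 2, that is, a class of a twist of `E` by a constant of `k₁` over `k₁(t)` which is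
not divisible by 2. So it suffices that for all the twists by constants of `k₁` the second descent over `k₁`
leaves only the four triples of the points of order two. (b) The conditions of the second descent are
equations for the signs of the automorphisms over `k₁` on the square roots of the differences `θ - η` of the
roots of `a`, `b`, `a - b`. Norms and commutators with the elements of the alternating groups (double
transpositions of the roots of each of the three polynomials which fix the roots of the two others) give
enough signs to exclude all the other triples. (c) For (2): Frobenius elements at maximal ideals of `R` give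
the alternating groups and the nonsquares; a sieve over the maximal ideals of `R`.
-/

namespace Pool.Agent.Results.MP_89bcae_ag.GaloisCriterionFullLevel

open Polynomial Pool.Agent.TH115.GD Pool.Agent.K9h16.GK Filter Topology
open scoped Classical

/-- The polynomial over `k` with the coefficients `c`. -/
noncomputable def poly {R : Type} [CommRing R] (k : Type) [Field k] [Algebra R k] {r : ℕ}
    (c : Fin r → R) : k[X] :=
  ∑ j : Fin r, C (algebraMap R k (c j)) * X ^ (j : ℕ)

/-- The pairs of coefficient vectors of polynomials of degree at most `N`. -/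
abbrev Pairs (N : ℕ) (R : Type) : Type := (Fin (N + 1) → R) × (Fin (N + 1) → R)

/-- The conclusions for all the twists `y² = x (x - δ a) (x - δ b)` by constants `δ` of `L` (`L'` is a
separable closure of `L`, `K = L(t)`, `F = L'(t)`), for the polynomials `a`, `b` over the subfield `k` of
`L`. -/
def HoldsOver {k : Type} [Field k] (a b : k[X]) (L L' K F : Type) [Field L] [Field L']
    [Algebra L L'] [Field K] [Algebra L[X] K] [Field F] [Algebra L'[X] F]
    [IsFractionRing L'[X] F] [Algebra K F] [Algebra k L] : Prop :=
  ∀ δ : L, δ ≠ 0 →
    TateAtTwo (F := F) L' (crv (algebraMap L[X] K (C δ * a.map (algebraMap k L)))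
      (algebraMap L[X] K (C δ * b.map (algebraMap k L)))) ∧
    GeneratedBy (F := F) L' (crv (algebraMap L[X] K (C δ * a.map (algebraMap k L)))
      (algebraMap L[X] K (C δ * b.map (algebraMap k L)))) 0

/-- The criterion for `y² = x (x - a) (x - b)`: `a`, `b`, `a - b` are separable of degree at least `5`, the
Galois group of their product contains the product of the three alternating groups, a product of two values
of `b` at roots of `a` is not a square in the splitting field of `a`, and a minor of `a`, `b` and a minor of
`a`, `a - b` are not squares in the splitting fields of `a b` and `a (a - b)`. -/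
structure Criterion {k : Type} [Field k] (a b : k[X]) : Prop where
  sepA : a.Separable
  sepB : b.Separable
  sepD : (a - b).Separable
  degA : 5 ≤ a.natDegree
  degB : 5 ≤ b.natDegree
  degD : 5 ≤ (a - b).natDegree
  gal : ContainsAlternating ![a, b, a - b]
  values : NonsquareValues a b
  minorB : NonsquareMinor a b
  minorD : NonsquareMinor a (a - b)

/-- For EVERY finite separable extension `L` of `k` and EVERY constant `δ ≠ 0` of `L` the Tate conjecture
at two holds for the twist over `L(t)`, and all its classes are zero. -/
def Potentially {k : Type} [Field k] (a b : k[X]) : Prop :=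
  ∀ (L L' K F : Type) [Field L] [Field L'] [Algebra L L'] [Field K] [Algebra L[X] K]
    [Field F] [Algebra L'[X] F] [IsFractionRing L'[X] F] [Algebra K F]
    [Algebra k L] [FiniteDimensional k L] [Algebra.IsSeparable k L], IsTower L L' K F →
      HoldsOver a b L L' K F

theorem potentially_of {k : Type} [Field k] (h2 : (2 : k) ≠ 0) {a b : k[X]} (h : Criterion a b) :
    Potentially a b := by
  have hG : C3 a b := ⟨h2, h.sepA, h.sepB, h.sepD, h.degA, h.degB, h.degD, h.gal, h.values,
    h.minorB, h.minorD⟩
  intro L L' K F _ _ _ _ _ _ _ _ _ _ _ _ hT δ hδ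
  letI : Algebra k L' := ((algebraMap L L').comp (algebraMap k L)).toAlgebra
  haveI : IsScalarTower k L L' := IsScalarTower.of_algebraMap_eq fun _ => rfl
  exact hG.pot hT hδ

/-- The pair `y` over `R` is in the residue class `z`. -/
def InClass {R : Type} [CommRing R] {N : ℕ} {M : Ideal R} (y : Pairs N R)
    (z : Pairs N (R ⧸ M)) : Prop :=
  (∀ j, Ideal.Quotient.mk M (y.1 j) = z.1 j) ∧ (∀ j, Ideal.Quotient.mk M (y.2 j) = z.2 j)

/-- A sequence of finite sets of pairs which is equidistributed modulo each ideal with finite
quotient. -/
def Equidistributed {R : Type} [CommRing R] {N : ℕ} (B : ℕ → Finset (Pairs N R)) : Prop :=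
  ∀ M : Ideal R, Finite (R ⧸ M) → ∀ z : Pairs N (R ⧸ M),
    Tendsto (fun i => (((B i).filter (fun y => InClass y z)).card : ℝ) / ((B i).card : ℝ)) atTop
      (𝓝 (1 / (Nat.card (Pairs N (R ⧸ M)) : ℝ)))

/-- The vector of all the coefficients. -/
def toV {N : ℕ} {R : Type} (z : Pairs N R) : Fin (N + 1) ⊕ Fin (N + 1) → R := Sum.elim z.1 z.2

theorem toV_inj {N : ℕ} {R : Type} : Function.Injective (toV (N := N) (R := R)) := by
  rintro ⟨a, b⟩ ⟨a', b'⟩ h
  exact Prod.ext (funext fun j => congrFun h (Sum.inl j)) (funext fun j => congrFun h (Sum.inr j))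

theorem toV_surj {N : ℕ} {R : Type} (y : Fin (N + 1) ⊕ Fin (N + 1) → R) :
    ∃ z : Pairs N R, toV z = y := by
  refine ⟨(fun j => y (Sum.inl j), fun j => y (Sum.inr j)), ?_⟩
  funext j
  rcases j with j | j <;> rfl

theorem inClass_iff {R : Type} [CommRing R] {N : ℕ} {M : Ideal R} (y : Pairs N R)
    (z : Pairs N (R ⧸ M)) :
    InClass y z ↔ ∀ j, Ideal.Quotient.mk M (toV y j) = toV z j := by
  constructor
  · rintro ⟨h1, h2⟩ (j | j)
    · exact h1 j
    · exact h2 j
  · intro h
    exact ⟨fun j => h (Sum.inl j), fun j => h (Sum.inr j)⟩

theorem criterion_of {R k : Type} [CommRing R] [IsDomain R] [IsIntegrallyClosed R]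
    [IsNoetherianRing R] [Field k] [Algebra R k] [IsFractionRing R k] (h2 : (2 : R) ≠ 0)
    {N B : ℕ} (hN : 5 ≤ N) {z : Pairs N R}
    (h : ∀ s : Pool.Agent.K9h16.PT.Ie, ∃ p ∈ Pool.Agent.X243.Gen.Zg R B,
      (fun j => Ideal.Quotient.mk p (toV z j)) ∈ Pool.Agent.K9h16.PT.Gp N s (R ⧸ p)) :
    Criterion (poly k z.1) (poly k z.2) := by
  have h2k : (2 : k) ≠ 0 := by
    rw [← map_ofNat (algebraMap R k) 2]
    exact (map_ne_zero_iff _ (IsFractionRing.injective R k)).2 h2
  have ea := (Pool.Agent.X243.Tate.bF_map (algebraMap R k) z.1).symm
  have eb := (Pool.Agent.X243.Tate.bF_map (algebraMap R k) z.2).symm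
  obtain ⟨h1, h3, h4, h5⟩ := Pool.Agent.X243.Gen.fl_goodG (k := k) (y := toV z) (by omega : 3 ≤ N)
    (fun s => h (Sum.inl s)) (poly k z.1) (poly k z.2) ea eb
  have h6 := Pool.Agent.K9h16.PT.six_of (k := k) (y := toV z) h (poly k z.1) (poly k z.2) ea eb
  have hco := Pool.Agent.X243.Gen.cop_ofG h1 h5
  have hcd : IsCoprime (poly k z.1) (poly k z.1 - poly k z.2) := by
    obtain ⟨u, v, huv⟩ := hco
    exact ⟨u + v, -v, by rw [← huv]; ring⟩
  have e1 : (poly k z.1).natDegree = N := h1.1.2
  have e2 : (poly k z.2).natDegree = N := h3.1.2
  have e3 : (poly k z.1 - poly k z.2).natDegree = N := h4.1.2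
  exact ⟨h1.2.1, h3.2.1, h4.2.1, by omega, by omega, by omega,
    alt_of h1.2.1 h3.2.1 h4.2.1 h1.2.2 h3.2.2 h4.2.2 h6, val_of h2k h1.2.1 hco h5,
    nonsquareMinor_of h2k h1.2.1 h3.2.1 hco h6.mf, nonsquareMinor_of h2k h1.2.1 h4.2.1 hcd h6.mg⟩

theorem result :
    (∀ (k : Type) [Field k], (2 : k) ≠ 0 → ∀ a b : k[X], Criterion a b → Potentially a b) ∧
    ∀ (R k : Type) [CommRing R] [IsDomain R] [IsIntegrallyClosed R] [Algebra.FiniteType ℤ R]
      [Field k] [Algebra R k] [IsFractionRing R k], ¬ IsField R → (2 : R) ≠ 0 →
      ∀ N : ℕ, 5 ≤ N → ∀ B : ℕ → Finset (Pairs N R), (∀ i, (B i).Nonempty) → Equidistributed B →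
        Tendsto (fun i => (((B i).filter (fun y => Criterion (poly k y.1) (poly k y.2))).card : ℝ) /
          ((B i).card : ℝ)) atTop (𝓝 1) := by
  refine ⟨fun k _ h2 a b h => potentially_of h2 h, ?_⟩
  intro R k _ _ _ _ _ _ _ hR h2 N hN
  have : IsNoetherianRing R := Algebra.FiniteType.isNoetherianRing ℤ R
  have hcard : ∀ M : Ideal R, (Nat.card (Pairs N (R ⧸ M)) : ℝ) =
      (Nat.card (R ⧸ M) : ℝ) ^ (Fintype.card (Fin (N + 1) ⊕ Fin (N + 1))) := by
    intro M
    rw [Nat.card_congr (Equiv.ofBijective _ ⟨toV_inj (N := N) (R := R ⧸ M), toV_surj⟩),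
      Nat.card_fun, Nat.card_eq_fintype_card (α := Fin (N + 1) ⊕ Fin (N + 1))]
    push_cast
    rfl
  -- the good vectors
  obtain ⟨S, hS⟩ : ∃ S : Set (Fin (N + 1) ⊕ Fin (N + 1) → R),
      S = {x | ∃ z : Pairs N R, toV z = x ∧ Criterion (poly k z.1) (poly k z.2)} := ⟨_, rfl⟩
  have hSmem : ∀ y : Pairs N R, toV y ∈ S ↔ Criterion (poly k y.1) (poly k y.2) := by
    intro y
    rw [hS]
    constructor
    · rintro ⟨z, hz, hg⟩
      rwa [toV_inj hz] at hg
    · intro hg
      exact ⟨y, rfl, hg⟩
  have key : ∀ η : ℝ, 0 < η → ∃ M : Ideal R, Finite (R ⧸ M) ∧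
      (1 - η) * (Nat.card (R ⧸ M) : ℝ) ^ (Fintype.card (Fin (N + 1) ⊕ Fin (N + 1))) ≤
        (({x : Fin (N + 1) ⊕ Fin (N + 1) → R ⧸ M | ∀ y : Fin (N + 1) ⊕ Fin (N + 1) → R,
          (∀ j, Ideal.Quotient.mk M (y j) = x j) → y ∈ S}).ncard : ℝ) := by
    intro η hη
    obtain ⟨M, hM, hd⟩ := Pool.Agent.K9h16.PT.densP R hR h2 (by omega : 3 ≤ N) η hη
    have := hM
    refine ⟨M, hM, hd.trans ?_⟩
    have h3 : ∀ S T : Set (Fin (N + 1) ⊕ Fin (N + 1) → R ⧸ M), S ⊆ T →
        ((S.ncard : ℕ) : ℝ) ≤ ((T.ncard : ℕ) : ℝ) := fun S T h => by
      exact_mod_cast Set.ncard_le_ncard h (Set.toFinite _)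
    apply h3
    intro x hx y hy
    obtain ⟨z, rfl⟩ := toV_surj y
    rw [hSmem]
    refine criterion_of h2 hN (B := 16 * N + 16) (fun s => ?_)
    obtain ⟨p, hp, hp'⟩ := hx s
    exact ⟨p, hp, hp' (toV z) hy⟩
  intro B hB heq
  have hinj : Function.Injective (toV (R := R) (N := N)) := toV_inj
  have hc : ∀ (i : ℕ) (P : (Fin (N + 1) ⊕ Fin (N + 1) → R) → Prop) [DecidablePred P]
      (Q : Pairs N R → Prop) [DecidablePred Q], (∀ y, P (toV y) ↔ Q y) →
      (((B i).map ⟨toV, hinj⟩).filter P).card = ((B i).filter Q).card := by
    intro i P _ Q _ hPQ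
    rw [Finset.filter_map, Finset.card_map]
    congr 1
    ext y
    rw [Finset.mem_filter, Finset.mem_filter]
    exact and_congr_right fun _ => hPQ y
  have hlim := Pool.Agent.X243.Gen.tendsto_of_dens S key (fun i => (B i).map ⟨toV, hinj⟩)
    (fun i => (hB i).map) (by
      intro M hM x
      obtain ⟨z, rfl⟩ := toV_surj x
      have h1 := heq M hM z
      rw [hcard] at h1
      refine h1.congr fun i => ?_
      rw [Finset.card_map, hc i _ (fun y => InClass y z) (fun y => (inClass_iff y z).symm)])
  refine hlim.congr fun i => ?_
  rw [Finset.card_map, hc i _ (fun y => Criterion (poly k y.1) (poly k y.2)) hSmem]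

end Pool.Agent.Results.MP_89bcae_ag.GaloisCriterionFullLevel
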