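import Mathlib
import Pool.Agent.TH115.GD.Defs
import Pool.Agent.TH115.GD.Defs2
import Pool.Agent.TH115.ID.Defs
import Pool.Agent.K9h16.QT.Fing
import Pool.Agent.K9h16.GK.Def
import Pool.Agent.K9h16.GK.TwoC

/-!
# A Galois criterion for the potential Tate conjecture at 2 for the elliptic surfaces with a section of
# order two, over all fields of characteristic different from 2

Let `k` be ANY field of characteristic different from 2 (not only a finitely generated one), and `a`, `b`
polynomials over `k`, `d = a² - 4 b`. Every elliptic curve over `k(t)` with a rational point of order two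
is of the form

`E : y² = x (x² + a x + b)`.

If `b` and `d` are separable and coprime, the elliptic surface over the projective line with the generic
fibre `E` has fibres of type `I₂` over the roots of `b` and of type `I₁` over the roots of `d`; the fibre at
infinity is arbitrary. For general `a`, `b` of degrees at most `m` and `2 m` the geometric genus is
`⌈m / 2⌉ - 1`. (For `m = 3, 4` it is a K3 surface; for `m ≥ 5` the geometric genus is at least `2`.)

The pair `(a, b)` satisfies the CRITERION if

* `b` and `d` are separable of degree at least `5`,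
* the Galois group of the splitting field `M` of `b d` over `k` is the product of the two symmetric groups
  of the roots of `b` and of the roots of `d`,
* for some roots `θ`, `θ'` of `b` and `η`, `η'` of `d` the product
  `(θ - η) (θ' - η) (θ - η') (θ' - η')` is not a square in `M`.

(For instance the last condition holds if there is a discrete valuation of `k` at which `b` and `d` have
separable reductions of the same degrees and the valuation of the resultant of `b` and `d` is odd: `M` is
unramified there, and `θ - η` has an odd valuation for some roots `θ` of `b` and `η` of `d`, while `θ - η'`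
and `θ' - η` are units for the other roots `θ'` and `η'`. This remark is not a part of the theorem.)

Theorem. (1) (The criterion.) Let `(a, b)` satisfy the criterion. Then for EVERY finite separable extension
`L` of `k`, with separable closure `L'`, and EVERY constant `δ ≠ 0` of `L`, for the twist
`E_δ : y² = x (x² + δ a x + δ² b)` over `L(t)`

(i) the Tate conjecture for divisors at the prime 2 holds (`TateAtTwo`): the classes in
`V₂ Sel(E_δ / L'(t))` which are fixed by the Galois group of `L` come from `E_δ(L(t))`;

(ii) in fact all these classes are zero (`GeneratedBy` with `0` generators).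

So no nonzero class of `V₂ Sel(E / k'(t))`, `k'` a separable closure of `k`, is fixed by an open subgroup
of the Galois group of `k`.

(2) (100%.) Let `R` be an integrally closed domain which is finitely generated as a ring and not a field,
with `2 ≠ 0` in `R`, and `k` its field of fractions (each infinite finitely generated field of
characteristic different from 2 is of this form), and `m ≥ 3`. Let `B 0`, `B 1`, ... be a sequence of
nonempty finite sets of pairs `(a, b)` over `R` of degrees at most `m` and `2 m`, which is equidistributed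
modulo each ideal of `R` with finite quotient. Then the proportion of the pairs in `B i` which satisfy the
criterion tends to `1`.

The proof. Let `H` be an open normal subgroup of the Galois group of `k(t)`. (a) The
first layer of a class over `k'(t)` fixed by `H` gives a function `f` on the roots of `b` with values in
`Z / 2` (the parity function), and similarly for the isogenous curve and the roots of `d`. If an
automorphism `s` over `k` fixes the roots of `b` and `d`, then the difference of the conjugate of the class
and the class comes from a class of the isogenous curve, and a computation at the fibres of type `I₁` shows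
that the parity function of the latter is `θ ↦ Σ sg s (θ - η) + const` on the roots of `d`; the sum is over
the roots `η` of `b` with `f η = 1`, and `sg s x` is the sign of `s` on the square root of `x`. (b) The
Galois group acts on the classes fixed by `H` by automorphisms of finite order. For the elements `s` whose
signs form a single minor this forces `f` to be constant. So the classes are divisible by the isogenies, up
to zero classes, so they are infinitely divisible, so they are zero. (c) By commutators of the
transpositions with the automorphism which changes the sign of the nonsquare minor one obtains the elements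
with a single minor. (d) For (2): Frobenius elements at maximal ideals of `R` give the symmetric groups of
`b` and `d`, transpositions of the roots of each of the two polynomials which fix the roots of the other,
and the nonsquare minor; the counts of these events over finite fields (a mixing lemma for the pairs
`(b, a² - 4 b)` by Gauss sums) and a sieve over the maximal ideals of `R`.
-/

namespace Pool.Agent.Results.MP_89bcae_ag.GaloisCriterionOrderTwo

open Polynomial Pool.Agent.TH115.GD Pool.Agent.K9h16.GK Filter Topology
open scoped Classical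

/-- The polynomial over `k` with the coefficients `c`. -/
noncomputable def poly {R : Type} [CommRing R] (k : Type) [Field k] [Algebra R k] {r : ℕ}
    (c : Fin r → R) : k[X] :=
  ∑ j : Fin r, C (algebraMap R k (c j)) * X ^ (j : ℕ)

/-- The pairs of coefficient vectors of polynomials of degrees at most `m` and `2 m`. -/
abbrev Pairs (m : ℕ) (R : Type) : Type := (Fin (m + 1) → R) × (Fin (2 * m + 1) → R)

/-- The curve `y² = x (x² + δ a x + δ² b)` over `K = L(t)`, for `δ` in `L` and polynomials `a`, `b` over the
subfield `k` of `L`. -/
noncomputable def curve {k L : Type} [Field k] [Field L] [Algebra k L] (K : Type) [Field K]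
    [Algebra L[X] K] (a b : k[X]) (δ : L) : WeierstrassCurve K :=
  ⟨0, algebraMap L[X] K (C δ * a.map (algebraMap k L)), 0,
    algebraMap L[X] K (C (δ ^ 2) * b.map (algebraMap k L)), 0⟩

/-- The conclusions for all the twists `y² = x (x² + δ a x + δ² b)` by constants `δ` of `L` (`L'` is a
separable closure of `L`, `K = L(t)`, `F = L'(t)`), for the polynomials `a`, `b` over the subfield `k` of
`L`. -/
def HoldsOver {k : Type} [Field k] (a b : k[X]) (L L' K F : Type) [Field L] [Field L']
    [Algebra L L'] [Field K] [Algebra L[X] K] [Field F] [Algebra L'[X] F]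
    [IsFractionRing L'[X] F] [Algebra K F] [Algebra k L] : Prop :=
  ∀ δ : L, δ ≠ 0 → TateAtTwo (F := F) L' (curve K a b δ) ∧
    GeneratedBy (F := F) L' (curve K a b δ) 0

/-- The criterion for `y² = x (x² + a x + b)`: `b` and `a² - 4 b` are separable of degree at least `5`, the
Galois group of their product is the product of the two symmetric groups, and a minor is not a square in
its splitting field. -/
structure Criterion {k : Type} [Field k] (a b : k[X]) : Prop where
  sepB : b.Separable
  sepD : (a ^ 2 - 4 * b).Separable
  degB : 5 ≤ b.natDegree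
  degD : 5 ≤ (a ^ 2 - 4 * b).natDegree
  gal : FullProduct b (a ^ 2 - 4 * b)
  minor : NonsquareMinor b (a ^ 2 - 4 * b)

/-- For EVERY finite separable extension `L` of `k` and EVERY constant `δ ≠ 0` of `L` the Tate conjecture
at two holds for the twist over `L(t)`, and all its classes are zero. -/
def Potentially {k : Type} [Field k] (a b : k[X]) : Prop :=
  ∀ (L L' K F : Type) [Field L] [Field L'] [Algebra L L'] [Field K] [Algebra L[X] K]
    [Field F] [Algebra L'[X] F] [IsFractionRing L'[X] F] [Algebra K F]
    [Algebra k L] [FiniteDimensional k L] [Algebra.IsSeparable k L], IsTower L L' K F →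
      HoldsOver a b L L' K F

theorem potentially_of {k : Type} [Field k] (h2 : (2 : k) ≠ 0) {a b : k[X]} (h : Criterion a b) :
    Potentially a b := by
  have h0 : b * (a ^ 2 - 4 * b) ≠ 0 := mul_ne_zero h.sepB.ne_zero h.sepD.ne_zero
  have h0' : (a ^ 2 - 4 * b) * b ≠ 0 := mul_ne_zero h.sepD.ne_zero h.sepB.ne_zero
  have hB := h.degB
  have hD := h.degD
  have hG : Pool.Agent.K9h16.QT.GC a b :=
    ⟨⟨h2, h.sepB, h.sepD, coprime_of h.gal h0 h.sepB (by omega), by omega, by omega⟩,
      fullG_of h.gal h0, fullG_of (fullProduct_symm h.gal h0) h0',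
      pairG_of h.gal h0 h.sepD (by omega),
      pairG_of (fullProduct_symm h.gal h0) h0' h.sepB (by omega), minG_of h0 h.minor, hB, hD⟩
  intro L L' K F _ _ _ _ _ _ _ _ _ _ _ _ hT δ hδ
  letI : Algebra k L' := ((algebraMap L L').comp (algebraMap k L)).toAlgebra
  haveI : IsScalarTower k L L' := IsScalarTower.of_algebraMap_eq fun _ => rfl
  exact Pool.Agent.K9h16.QT.fin_main hT hG hδ

/-- The pair `y` over `R` is in the residue class `z`. -/
def InClass {R : Type} [CommRing R] {m : ℕ} {M : Ideal R} (y : Pairs m R)
    (z : Pairs m (R ⧸ M)) : Prop :=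
  (∀ j, Ideal.Quotient.mk M (y.1 j) = z.1 j) ∧ (∀ j, Ideal.Quotient.mk M (y.2 j) = z.2 j)

/-- A sequence of finite sets of pairs which is equidistributed modulo each ideal with finite
quotient. -/
def Equidistributed {R : Type} [CommRing R] {m : ℕ} (B : ℕ → Finset (Pairs m R)) : Prop :=
  ∀ M : Ideal R, Finite (R ⧸ M) → ∀ z : Pairs m (R ⧸ M),
    Tendsto (fun i => (((B i).filter (fun y => InClass y z)).card : ℝ) / ((B i).card : ℝ)) atTop
      (𝓝 (1 / (Nat.card (Pairs m (R ⧸ M)) : ℝ)))

/-- The vector of all the coefficients. -/
def toV {m : ℕ} {R : Type} (z : Pairs m R) : Fin (m + 1) ⊕ Fin (2 * m + 1) → R :=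
  Sum.elim z.1 z.2

theorem toV_inj {m : ℕ} {R : Type} : Function.Injective (toV (m := m) (R := R)) := by
  rintro ⟨a, b⟩ ⟨a', b'⟩ h
  exact Prod.ext (funext fun j => congrFun h (Sum.inl j)) (funext fun j => congrFun h (Sum.inr j))

theorem toV_surj {m : ℕ} {R : Type} (y : Fin (m + 1) ⊕ Fin (2 * m + 1) → R) :
    ∃ z : Pairs m R, toV z = y := by
  refine ⟨(fun j => y (Sum.inl j), fun j => y (Sum.inr j)), ?_⟩
  funext j
  rcases j with j | j <;> rfl

theorem inClass_iff {R : Type} [CommRing R] {m : ℕ} {M : Ideal R} (y : Pairs m R)
    (z : Pairs m (R ⧸ M)) :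
    InClass y z ↔ ∀ j, Ideal.Quotient.mk M (toV y j) = toV z j := by
  constructor
  · rintro ⟨h1, h2⟩ (j | j)
    · exact h1 j
    · exact h2 j
  · intro h
    exact ⟨fun j => h (Sum.inl j), fun j => h (Sum.inr j)⟩

theorem criterion_of {R k : Type} [CommRing R] [IsDomain R] [IsIntegrallyClosed R]
    [IsNoetherianRing R] [Field k] [Algebra R k] [IsFractionRing R k] (h2 : (2 : R) ≠ 0)
    {m B : ℕ} (hm : 3 ≤ m) {z : Pairs m R}
    (h : ∀ s : Pool.Agent.K9h16.QT.Iq, ∃ p ∈ Pool.Agent.X243.Gen.Zg R B,
      (fun j => Ideal.Quotient.mk p (toV z j)) ∈ Pool.Agent.K9h16.QT.Gq m s (R ⧸ p)) :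
    Criterion (poly k z.1) (poly k z.2) := by
  have h2k : (2 : k) ≠ 0 := by
    rw [← map_ofNat (algebraMap R k) 2]
    exact (map_ne_zero_iff _ (IsFractionRing.injective R k)).2 h2
  have ea := (Pool.Agent.X243.Tate.bF_map (algebraMap R k) z.1).symm
  have eb := (Pool.Agent.X243.Tate.bF_map (algebraMap R k) z.2).symm
  obtain ⟨-, -, h4⟩ := Pool.Agent.K9h16.QT.gc_all (k := k) (y := toV z) h2 hm h
    (poly k z.1) (poly k z.2) ea eb
  exact ⟨h4.S.sb, h4.S.sd, h4.nb, h4.nd,
    fullProduct_of h4.S.sb h4.S.sd h4.fb h4.fd h4.db h4.bd,
    nonsquareMinor_of h2k h4.S.sb h4.S.sd h4.S.cop h4.mn⟩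

theorem result :
    (∀ (k : Type) [Field k], (2 : k) ≠ 0 → ∀ a b : k[X], Criterion a b → Potentially a b) ∧
    ∀ (R k : Type) [CommRing R] [IsDomain R] [IsIntegrallyClosed R] [Algebra.FiniteType ℤ R]
      [Field k] [Algebra R k] [IsFractionRing R k], ¬ IsField R → (2 : R) ≠ 0 →
      ∀ m : ℕ, 3 ≤ m → ∀ B : ℕ → Finset (Pairs m R), (∀ i, (B i).Nonempty) → Equidistributed B →
        Tendsto (fun i => (((B i).filter (fun y => Criterion (poly k y.1) (poly k y.2))).card : ℝ) /
          ((B i).card : ℝ)) atTop (𝓝 1) := by
  refine ⟨fun k _ h2 a b h => potentially_of h2 h, ?_⟩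
  intro R k _ _ _ _ _ _ _ hR h2 m hm
  have : IsNoetherianRing R := Algebra.FiniteType.isNoetherianRing ℤ R
  have hcard : ∀ M : Ideal R, (Nat.card (Pairs m (R ⧸ M)) : ℝ) =
      (Nat.card (R ⧸ M) : ℝ) ^ (Fintype.card (Fin (m + 1) ⊕ Fin (2 * m + 1))) := by
    intro M
    rw [Nat.card_congr (Equiv.ofBijective _ ⟨toV_inj (m := m) (R := R ⧸ M), toV_surj⟩),
      Nat.card_fun, Nat.card_eq_fintype_card (α := Fin (m + 1) ⊕ Fin (2 * m + 1))]
    push_cast
    rfl
  -- the good vectors
  obtain ⟨S, hS⟩ : ∃ S : Set (Fin (m + 1) ⊕ Fin (2 * m + 1) → R),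
      S = {x | ∃ z : Pairs m R, toV z = x ∧ Criterion (poly k z.1) (poly k z.2)} := ⟨_, rfl⟩
  have hSmem : ∀ y : Pairs m R, toV y ∈ S ↔ Criterion (poly k y.1) (poly k y.2) := by
    intro y
    rw [hS]
    constructor
    · rintro ⟨z, hz, hg⟩
      rwa [toV_inj hz] at hg
    · intro hg
      exact ⟨y, rfl, hg⟩
  obtain ⟨B0, hB0⟩ := Pool.Agent.K9h16.QT.densQ R hR h2 hm
  have key : ∀ η : ℝ, 0 < η → ∃ M : Ideal R, Finite (R ⧸ M) ∧
      (1 - η) * (Nat.card (R ⧸ M) : ℝ) ^ (Fintype.card (Fin (m + 1) ⊕ Fin (2 * m + 1))) ≤
        (({x : Fin (m + 1) ⊕ Fin (2 * m + 1) → R ⧸ M |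
          ∀ y : Fin (m + 1) ⊕ Fin (2 * m + 1) → R,
          (∀ j, Ideal.Quotient.mk M (y j) = x j) → y ∈ S}).ncard : ℝ) := by
    intro η hη
    obtain ⟨M, hM, hd⟩ := hB0 η hη
    have := hM
    refine ⟨M, hM, hd.trans ?_⟩
    have h3 : ∀ S T : Set (Fin (m + 1) ⊕ Fin (2 * m + 1) → R ⧸ M), S ⊆ T →
        ((S.ncard : ℕ) : ℝ) ≤ ((T.ncard : ℕ) : ℝ) := fun S T h => by
      exact_mod_cast Set.ncard_le_ncard h (Set.toFinite _)
    apply h3
    intro x hx y hy
    obtain ⟨z, rfl⟩ := toV_surj y
    rw [hSmem]
    refine criterion_of h2 hm (B := B0) (fun s => ?_)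
    obtain ⟨p, hp, hp'⟩ := hx s
    exact ⟨p, hp, hp' (toV z) hy⟩
  intro B hB heq
  have hinj : Function.Injective (toV (R := R) (m := m)) := toV_inj
  have hc : ∀ (i : ℕ) (P : (Fin (m + 1) ⊕ Fin (2 * m + 1) → R) → Prop) [DecidablePred P]
      (Q : Pairs m R → Prop) [DecidablePred Q], (∀ y, P (toV y) ↔ Q y) →
      (((B i).map ⟨toV, hinj⟩).filter P).card = ((B i).filter Q).card := by
    intro i P _ Q _ hPQ
    rw [Finset.filter_map, Finset.card_map]
    congr 1
    ext y
    rw [Finset.mem_filter, Finset.mem_filter]
    exact and_congr_right fun _ => hPQ y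
  have hlim := Pool.Agent.X243.Gen.tendsto_of_dens S key (fun i => (B i).map ⟨toV, hinj⟩)
    (fun i => (hB i).map) (by
      intro M hM x
      obtain ⟨z, rfl⟩ := toV_surj x
      have h1 := heq M hM z
      rw [hcard] at h1
      refine h1.congr fun i => ?_
      rw [Finset.card_map, hc i _ (fun y => InClass y z) (fun y => (inClass_iff y z).symm)])
  refine hlim.congr fun i => ?_
  rw [Finset.card_map, hc i _ (fun y => Criterion (poly k y.1) (poly k y.2)) hSmem]

end Pool.Agent.Results.MP_89bcae_ag.GaloisCriterionOrderTwo
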