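import Mathlib
import Pool.Agent.TH115.GD.Defs
import Pool.Agent.N181.P8.Desc
import Pool.Agent.K9h16.GK.Def
import Pool.Agent.K9h16.RO.FinR
import Pool.Agent.K9h16.RO.Den

/-!
# A Galois criterion for the potential Tate conjecture at 2 and for Mordell-Weil rank exactly one, for
# elliptic surfaces with a section of order two and a section of infinite order, over all fields of
# characteristic different from 2

Let `k` be ANY field of characteristic different from 2, and `p`, `q`, `w` polynomials over `k`. Every
elliptic curve over `k(t)` of the form `y² = x (x² + a x + p q)` with a point with `x = p` is of the form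

`E : y² = x (x² + (w² - p - q) x + p q)`.

It has the point `T = (0, 0)` of order two and the point `P = (p, p w)`. Put `d = (w² - p - q)² - 4 p q`.
For general `p`, `q` of degree at most `2 m` and `w` of degree at most `m` the elliptic surface over the
projective line with the generic fibre `E` has the geometric genus `m - 1`; these surfaces form a component
of the Noether-Lefschetz locus of the family of all the elliptic surfaces with a section of order two.

The triple `(p, q, w)` satisfies the CRITERION if

* `p`, `q` and `d` are separable of degree at least `5`,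
* each triple of EVEN permutations of the roots of `p`, `q`, `d` is given by an element of the Galois group
  of the splitting field of `p q d` over `k`,
* for some roots `θ`, `θ'` of `p` and `η`, `η'` of `d` the product
  `(θ - η) (θ' - η) (θ - η') (θ' - η')` is not a square in the splitting field of `p d` over `k`, and the
  same holds for `q` and `d`.

Theorem. (1) (The criterion.) Let `(p, q, w)` satisfy the criterion. Then

(i) (`TateAll`) for EVERY finite separable extension `L` of `k` and EVERY constant `δ ≠ 0` of `L` the Tate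
conjecture for divisors at the prime 2 holds for the twist
`E_δ : y² = x (x² + δ (w² - p - q) x + δ² p q)` over `L(t)` (`TateQ 2`): for the classes in
`V₂ Sel(E_δ / L'(t))`, `L'` a separable closure of `L`, which are fixed by the Galois group there is `N > 0`
such that `N` times the class comes from `E_δ(L(t))`. (For `δ = 1` there are nonzero classes, the
multiples of the class of `P`.)

(ii) (`RankOne`) Over a separable closure `k'` of `k` the point `P` is of infinite order, each point of
`E(k'(t))` is `i P + j T + 2 V` with integers `i`, `j` and a point `V`, and if `E(k'(t))` is finitely generated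
(the theorem of Lang and Néron), then for an odd number `n` the `n`-th multiple of each point is
`i P + j T`; so the rank of `E(k'(t))`, and of `E(L(t))` for all `L`, is exactly one.

(2) (100%.) Let `R` be an integrally closed domain which is finitely generated as a ring and not a field,
with `2 ≠ 0` in `R`, and `k` its field of fractions, and `m ≥ 3`. Consider the surfaces with `w = 1`, `p = u`
and `q = u + s + 1`,

`E : y² = x (x - u) (x - u - s - 1) + x²`,

with `s` of degree at most `m` and `u` of degree at most `2 m`; here `d = s² - 4 u`, and the geometric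
genus is `m - 1 ≥ 2` in general. (There are fibres of type `I₂` over the roots of `p q`, of type `I₁` over
those of `d`, and one of type `I_(2 m)` at infinity.) Let `B 0`, `B 1`, ... be a sequence of nonempty finite
sets of pairs `(s, u)` over `R` of degrees at most `m` and `2 m`, which is equidistributed modulo each ideal of
`R` with finite quotient. Then the proportion of the pairs in `B i` for which `(u, u + s + 1, 1)` satisfies
the criterion tends to `1`.

The proof. Let `H` be an open normal subgroup of the Galois group of `k(t)`. (a) The first layer of a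
class over `k'(t)` fixed by `H` gives a parity function on the roots of `p q`. By the elements of the Galois
group whose signs on the square roots of the differences `θ - η` of the roots of `p q` and of `d` form a
single minor in the roots of `p` and of `d`, it is constant on the roots of `p`, and in the same way on the
roots of `q`; these elements are commutators of the element which changes the sign of the nonsquare minor
with the cycles of length three. The class of `P` has the parity function which is one on the roots of
`p` and zero on the roots of `q`; so, up to it, each class comes from the isogenous curve. There the parity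
function is constant on the roots of `d`. So each class is a multiple of the class of `P` plus a class
which is divisible by two, and this can be iterated. (b) An average over a subgroup of finite index
gives the Tate conjecture over `L`. (c) The same descent for points, and the additivity of the parity
functions, give (ii). (d) For (2): the pairs `(s, u)` and `(- s - 2, u + s + 1)` give the same `d`, and both
are pairs of the families of `GaloisCriterionOrderTwo`; this gives the full symmetric groups of `p`, `q`,
`d`, transpositions for `p`, `d` and for `q`, `d`, and the minors. An element which fixes the roots of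
`p` and moves a root of `q` is a Frobenius element at a maximal ideal modulo which `p` splits and `q` does
not; for given `u` the number of roots of `u + s + 1` is one on the average, so at most half of the `s` give
two roots. Commutators give the cycles of length three. Last, a sieve over the maximal ideals of `R`.
-/

namespace Pool.Agent.Results.MP_89bcae_ag.GaloisCriterionRankOne

open Polynomial Pool.Agent.TH115.GD Pool.Agent.K9h16.GK Filter Topology
open Pool.Agent.N181.P8 (TateQ)
open WeierstrassCurve.Affine (Point)
open scoped Classical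

/-- The polynomial over `k` with the coefficients `c`. -/
noncomputable def poly {R : Type} [CommRing R] (k : Type) [Field k] [Algebra R k] {r : ℕ}
    (c : Fin r → R) : k[X] :=
  ∑ j : Fin r, C (algebraMap R k (c j)) * X ^ (j : ℕ)

/-- The pairs of coefficient vectors of polynomials of degrees at most `m` and `2 m`. -/
abbrev Pairs (m : ℕ) (R : Type) : Type := (Fin (m + 1) → R) × (Fin (2 * m + 1) → R)

/-- The curve `y² = x (x² + a x + b)` over `K`, for polynomials `a`, `b` over `k`. -/
noncomputable def curve {k : Type} [Field k] (K : Type) [Field K] [Algebra k[X] K] (a b : k[X]) :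
    WeierstrassCurve K :=
  ⟨0, algebraMap k[X] K a, 0, algebraMap k[X] K b, 0⟩

/-- The criterion for `y² = x (x² + (w² - p - q) x + p q)`, `d = (w² - p - q)² - 4 p q`: `p`, `q`, `d` are
separable of degree at least `5`, the Galois group of their product contains the product of the
alternating groups, and minors of `p`, `d` and of `q`, `d` are no squares in the splitting fields of `p d`
and `q d`. -/
structure Criterion {k : Type} [Field k] (p q w : k[X]) : Prop where
  sepP : p.Separable
  sepQ : q.Separable
  sepD : ((w ^ 2 - p - q) ^ 2 - 4 * (p * q)).Separable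
  degP : 5 ≤ p.natDegree
  degQ : 5 ≤ q.natDegree
  degD : 5 ≤ ((w ^ 2 - p - q) ^ 2 - 4 * (p * q)).natDegree
  gal : ContainsAlternating ![p, q, (w ^ 2 - p - q) ^ 2 - 4 * (p * q)]
  minorP : NonsquareMinor p ((w ^ 2 - p - q) ^ 2 - 4 * (p * q))
  minorQ : NonsquareMinor q ((w ^ 2 - p - q) ^ 2 - 4 * (p * q))

/-- For EVERY finite separable extension `L` of `k` and EVERY constant `δ ≠ 0` of `L` the Tate conjecture
at two holds for the twist `y² = x (x² + δ a x + δ² b)` over `K = L(t)`. -/
def TateAll {k : Type} [Field k] (a b : k[X]) : Prop :=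
  ∀ (L L' K F : Type) [Field L] [Field L'] [Algebra L L'] [Field K] [Algebra L[X] K]
    [Field F] [Algebra L'[X] F] [IsFractionRing L'[X] F] [Algebra K F]
    [Algebra k L] [FiniteDimensional k L] [Algebra.IsSeparable k L], IsTower L L' K F →
      ∀ δ : L, δ ≠ 0 → TateQ (F := F) 2 L'
        (curve K (C δ * a.map (algebraMap k L)) (C (δ ^ 2) * b.map (algebraMap k L)))

/-- The point `P` is of infinite order, each point over `F` is `i P + j T + 2 V`, and if the group of the
points over `F` is finitely generated, then an odd multiple of each point is `i P + j T`. -/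
def Generate {K F : Type} [Field K] [Field F] [Algebra K F] (W : WeierstrassCurve K)
    (P T : Pt W F) : Prop :=
  (∀ n : ℕ, 0 < n → n • P ≠ 0) ∧
  (∀ Q : Pt W F, ∃ (i j : ℤ) (V : Pt W F), Q = i • P + j • T + (V + V)) ∧
  (AddGroup.FG (Pt W F) → ∃ n : ℕ, Odd n ∧ ∀ Q : Pt W F, ∃ i j : ℤ, n • Q = i • P + j • T)

/-- The points `P = (p, p w)` and `T = (0, 0)` over `F = k'(t)`, `k'` a separable closure of `k`. -/
def RankOne {k : Type} [Field k] (p q w : k[X]) : Prop :=
  ∀ (k' K F : Type) [Field k'] [Algebra k k'] [Field K] [Algebra k[X] K]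
    [Field F] [Algebra k'[X] F] [IsFractionRing k'[X] F] [Algebra K F], IsTower k k' K F →
    ∃ (hT : ((curve K (w ^ 2 - p - q) (p * q)).baseChange F).toAffine.Nonsingular 0 0)
      (hP : ((curve K (w ^ 2 - p - q) (p * q)).baseChange F).toAffine.Nonsingular
        (algebraMap k'[X] F (p.map (algebraMap k k')))
        (algebraMap k'[X] F ((p * w).map (algebraMap k k')))),
      Generate (curve K (w ^ 2 - p - q) (p * q)) (Point.some _ _ hP) (Point.some 0 0 hT)

theorem rc {k : Type} [Field k] (h2 : (2 : k) ≠ 0) {p q w : k[X]} (h : Criterion p q w) :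
    Pool.Agent.K9h16.RO.RC (w ^ 2 - p - q) p q :=
  ⟨h2, h.sepP, h.sepQ, h.sepD, h.degP, h.degQ, h.degD, h.gal, h.minorP, h.minorQ⟩

theorem both_of {k : Type} [Field k] (h2 : (2 : k) ≠ 0) {p q w : k[X]} (h : Criterion p q w) :
    TateAll (w ^ 2 - p - q) (p * q) ∧ RankOne p q w := by
  have hC := rc h2 h
  have hw : w ^ 2 - p - q + p + q = w ^ 2 := by ring
  constructor
  · intro L L' K F _ _ _ _ _ _ _ _ _ _ _ _ hT δ hδ
    exact Pool.Agent.K9h16.RO.fin_tateR hT hC hw hδ
  · intro k' K F _ _ _ _ _ _ _ _ hT
    exact Pool.Agent.K9h16.RO.sections1 hT hC hw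

/-- The pair `y` over `R` is in the residue class `z`. -/
def InClass {R : Type} [CommRing R] {m : ℕ} {M : Ideal R} (y : Pairs m R)
    (z : Pairs m (R ⧸ M)) : Prop :=
  (∀ j, Ideal.Quotient.mk M (y.1 j) = z.1 j) ∧ (∀ j, Ideal.Quotient.mk M (y.2 j) = z.2 j)

/-- A sequence of finite sets of pairs which is equidistributed modulo each ideal with finite
quotient. -/
def Equidistributed {R : Type} [CommRing R] {m : ℕ} (B : ℕ → Finset (Pairs m R)) : Prop :=
  ∀ M : Ideal R, Finite (R ⧸ M) → ∀ z : Pairs m (R ⧸ M),
    Tendsto (fun i => (((B i).filter (fun y => InClass y z)).card : ℝ) / ((B i).card : ℝ)) atTop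
      (𝓝 (1 / (Nat.card (Pairs m (R ⧸ M)) : ℝ)))

/-- The criterion for `p = u`, `q = u + s + 1`, `w = 1`. -/
def Good {k : Type} [Field k] (s u : k[X]) : Prop := Criterion u (u + s + 1) 1

/-- The vector of all the coefficients. -/
def toV {m : ℕ} {R : Type} (z : Pairs m R) : Fin (m + 1) ⊕ Fin (2 * m + 1) → R :=
  Sum.elim z.1 z.2

theorem toV_inj {m : ℕ} {R : Type} : Function.Injective (toV (m := m) (R := R)) := by
  rintro ⟨a, b⟩ ⟨a', b'⟩ h
  exact Prod.ext (funext fun j => congrFun h (Sum.inl j)) (funext fun j => congrFun h (Sum.inr j))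

theorem toV_surj {m : ℕ} {R : Type} (y : Fin (m + 1) ⊕ Fin (2 * m + 1) → R) :
    ∃ z : Pairs m R, toV z = y := by
  refine ⟨(fun j => y (Sum.inl j), fun j => y (Sum.inr j)), ?_⟩
  funext j
  rcases j with j | j <;> rfl

theorem inClass_iff {R : Type} [CommRing R] {m : ℕ} {M : Ideal R} (y : Pairs m R)
    (z : Pairs m (R ⧸ M)) :
    InClass y z ↔ ∀ j, Ideal.Quotient.mk M (toV y j) = toV z j := by
  constructor
  · rintro ⟨h1, h2⟩ (j | j)
    · exact h1 j
    · exact h2 j
  · intro h
    exact ⟨fun j => h (Sum.inl j), fun j => h (Sum.inr j)⟩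

theorem good_of {R k : Type} [CommRing R] [IsDomain R] [IsIntegrallyClosed R]
    [IsNoetherianRing R] [Field k] [Algebra R k] [IsFractionRing R k] (h2 : (2 : R) ≠ 0)
    {m B : ℕ} (hm : 3 ≤ m) {z : Pairs m R}
    (h : ∀ s : Bool × Option Pool.Agent.K9h16.QT.Iq, ∃ p ∈ Pool.Agent.X243.Gen.Zg R B,
      (fun j => Ideal.Quotient.mk p (toV z j)) ∈ Pool.Agent.K9h16.RO.Ev2 m s (R ⧸ p)) :
    Good (poly k z.1) (poly k z.2) := by
  have ea := (Pool.Agent.X243.Tate.bF_map (algebraMap R k) z.1).symm
  have eb := (Pool.Agent.X243.Tate.bF_map (algebraMap R k) z.2).symm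
  have h1 := Pool.Agent.K9h16.RO.rc_of (k := k) (y := toV z) h2 hm h
    (poly k z.1) (poly k z.2) ea eb
  have e : (1 : k[X]) ^ 2 = 1 := one_pow 2
  refine ⟨h1.sp, h1.sq, ?_, h1.np, h1.nq, ?_, ?_, ?_, ?_⟩
  · rw [e]; exact h1.sd
  · rw [e]; exact h1.nd
  · rw [e]; exact h1.alt
  · rw [e]; exact h1.mp
  · rw [e]; exact h1.mq

theorem result :
    (∀ (k : Type) [Field k], (2 : k) ≠ 0 → ∀ p q w : k[X], Criterion p q w →
      TateAll (w ^ 2 - p - q) (p * q) ∧ RankOne p q w) ∧
    ∀ (R k : Type) [CommRing R] [IsDomain R] [IsIntegrallyClosed R] [Algebra.FiniteType ℤ R]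
      [Field k] [Algebra R k] [IsFractionRing R k], ¬ IsField R → (2 : R) ≠ 0 →
      ∀ m : ℕ, 3 ≤ m → ∀ B : ℕ → Finset (Pairs m R), (∀ i, (B i).Nonempty) → Equidistributed B →
        Tendsto (fun i => (((B i).filter (fun y => Good (poly k y.1) (poly k y.2))).card : ℝ) /
          ((B i).card : ℝ)) atTop (𝓝 1) := by
  refine ⟨fun k _ h2 p q w h => both_of h2 h, ?_⟩
  intro R k _ _ _ _ _ _ _ hR h2 m hm
  have : IsNoetherianRing R := Algebra.FiniteType.isNoetherianRing ℤ R
  have hcard : ∀ M : Ideal R, (Nat.card (Pairs m (R ⧸ M)) : ℝ) =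
      (Nat.card (R ⧸ M) : ℝ) ^ (Fintype.card (Fin (m + 1) ⊕ Fin (2 * m + 1))) := by
    intro M
    rw [Nat.card_congr (Equiv.ofBijective _ ⟨toV_inj (m := m) (R := R ⧸ M), toV_surj⟩),
      Nat.card_fun, Nat.card_eq_fintype_card (α := Fin (m + 1) ⊕ Fin (2 * m + 1))]
    push_cast
    rfl
  -- the good vectors
  obtain ⟨S, hS⟩ : ∃ S : Set (Fin (m + 1) ⊕ Fin (2 * m + 1) → R),
      S = {x | ∃ z : Pairs m R, toV z = x ∧ Good (poly k z.1) (poly k z.2)} := ⟨_, rfl⟩
  have hSmem : ∀ y : Pairs m R, toV y ∈ S ↔ Good (poly k y.1) (poly k y.2) := by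
    intro y
    rw [hS]
    constructor
    · rintro ⟨z, hz, hg⟩
      rwa [toV_inj hz] at hg
    · intro hg
      exact ⟨y, rfl, hg⟩
  obtain ⟨B0, hB0⟩ := Pool.Agent.K9h16.RO.densR R hR h2 hm
  have key : ∀ η : ℝ, 0 < η → ∃ M : Ideal R, Finite (R ⧸ M) ∧
      (1 - η) * (Nat.card (R ⧸ M) : ℝ) ^ (Fintype.card (Fin (m + 1) ⊕ Fin (2 * m + 1))) ≤
        (({x : Fin (m + 1) ⊕ Fin (2 * m + 1) → R ⧸ M |
          ∀ y : Fin (m + 1) ⊕ Fin (2 * m + 1) → R,
          (∀ j, Ideal.Quotient.mk M (y j) = x j) → y ∈ S}).ncard : ℝ) := by
    intro η hη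
    obtain ⟨M, hM, hd⟩ := hB0 η hη
    have := hM
    refine ⟨M, hM, hd.trans ?_⟩
    have h3 : ∀ S T : Set (Fin (m + 1) ⊕ Fin (2 * m + 1) → R ⧸ M), S ⊆ T →
        ((S.ncard : ℕ) : ℝ) ≤ ((T.ncard : ℕ) : ℝ) := fun S T h => by
      exact_mod_cast Set.ncard_le_ncard h (Set.toFinite _)
    apply h3
    intro x hx y hy
    obtain ⟨z, rfl⟩ := toV_surj y
    rw [hSmem]
    refine good_of h2 hm (B := B0) (fun s => ?_)
    obtain ⟨p, hp, hp'⟩ := hx s
    exact ⟨p, hp, hp' (toV z) hy⟩
  intro B hB heq
  have hinj : Function.Injective (toV (R := R) (m := m)) := toV_inj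
  have hc : ∀ (i : ℕ) (P : (Fin (m + 1) ⊕ Fin (2 * m + 1) → R) → Prop) [DecidablePred P]
      (Q : Pairs m R → Prop) [DecidablePred Q], (∀ y, P (toV y) ↔ Q y) →
      (((B i).map ⟨toV, hinj⟩).filter P).card = ((B i).filter Q).card := by
    intro i P _ Q _ hPQ
    rw [Finset.filter_map, Finset.card_map]
    congr 1
    ext y
    rw [Finset.mem_filter, Finset.mem_filter]
    exact and_congr_right fun _ => hPQ y
  have hlim := Pool.Agent.X243.Gen.tendsto_of_dens S key (fun i => (B i).map ⟨toV, hinj⟩)
    (fun i => (hB i).map) (by
      intro M hM x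
      obtain ⟨z, rfl⟩ := toV_surj x
      have h1 := heq M hM z
      rw [hcard] at h1
      refine h1.congr fun i => ?_
      rw [Finset.card_map, hc i _ (fun y => InClass y z) (fun y => (inClass_iff y z).symm)])
  refine hlim.congr fun i => ?_
  rw [Finset.card_map, hc i _ (fun y => Good (poly k y.1) (poly k y.2)) hSmem]

end Pool.Agent.Results.MP_89bcae_ag.GaloisCriterionRankOne
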